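import Pool.Agent.L0h4.T4.Vn
import Pool.Agent.L0h1.F3R.Ga

/-!
# The curves `y² = x³ - 8 m³`, `m` odd: definitions and statements (analytic side)

The Hecke character of `y² = x³ - 8 m³` is `psi6 χ₋₈(N) (N / m)` for `m ≡ 1 mod 4` and
`psi6 χ₈(N) (N / m)` for `m ≡ 3 mod 4`. The criterion is the determinant with one more row and one
more column, for the prime two.
-/

set_option autoImplicit false
set_option linter.unusedSectionVars false

open Filter
open scoped Topology PeriodPair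

namespace Pool.Agent.L0h75.C8

open H667R3 Pool.Agent.W192.HK Pool.Agent.TH936.CM
open Pool.Agent.TH936.PU hiding pf
open Pool.Agent.Y696 Pool.Agent.Y715.T.Lat
open Pool.Agent.L0h86.F3 hiding Bv_eq
open Pool.Agent.L0h1.F3R Pool.Agent.L0h4.T4
open Pool.Agent.Y698.SG (lg ix)

/-- `χ₋₈` (`true`) or `χ₈` (`false`) -/
def c8 (k : Bool) : MulChar (ZMod 8) ℤ := if k then ZMod.χ₈' else ZMod.χ₈

/-- the character of the norm -/
noncomputable def c8I (k : Bool) (J : Ideal eis) : ℂ :=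
  ((c8 k (Nat.card (eis ⧸ J) : ZMod 8) : ℤ) : ℂ)

/-- the same on elements -/
noncomputable def et8 (k : Bool) (x : eis) : ℂ := c8I k (sp x)

/-- `1` or `0` -/
def kk (k : Bool) : ZMod 2 := if k then 1 else 0

/-- the diagonal data -/
noncomputable def cc8 {ι : Type} (k : Bool) (π : ι → eis) : Option ι → F4
  | none => F4.of (kk k)
  | some i => bt (π i)

/-- the off-diagonal data: `none` is the prime two -/
noncomputable def rr8 {ι : Type} (k : Bool) (π : ι → eis) : Option ι → Option ι → F4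
  | none, none => 0
  | none, some j => F4.of (lg (sy (π j) (-2)))
  | some i, none => F4.of (F4.tr (bt (π i)) + lg (et8 k (π i)))
  | some i, some j => F4.of (mm π i j)

/-- **the determinant of the criterion** -/
noncomputable def g8 {ι : Type} [DecidableEq ι] (k : Bool) (π : ι → eis) (S : Finset ι) : F4 :=
  gk (cc8 k π) (rr8 k π) (Finset.insertNone S)

/-- **the criterion** for `y² = x³ - 8 m³`: `k = true` for `m ≡ 1 mod 4`, `k = false` for
`m ≡ 3 mod 4` -/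
def Cr8 (k : Bool) (Q P : Finset ℕ) (ϖ : ℕ → eis) : Prop := g8 k (pf Q ϖ) (ix Q P) ≠ 0

/-! ### the modules -/

/-- C1: the Hecke characters of conductor `8√-3` -/
def S_PS8 : Prop := ∀ k : Bool, HC 1 (sp (8 * la : eis)) fun J => psi6 J * c8I k J

/-- C1': the characters satisfy the assumptions of `Gf` -/
def S_ET8 : Prop := ∀ k : Bool, Et 4 (et8 k)

/-- the function `℘'` at the points considered -/
noncomputable def Wf (L : PeriodPair) (Ω z : ℂ) : ℂ := ℘'[L] (-(Ω / (la : ℂ)) + z)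

/-- the integral part -/
noncomputable def yf (L : PeriodPair) (Ω z : ℂ) : ℂ := (Wf L Ω z - 1) / 2

/-- C3: the values of the base function, averaged over the cube roots of unity -/
def S_EV8 : Prop := ∀ (L : PeriodPair) (Ω : ℂ), Cur L Ω →
  ∃ C0 : ℂ, C0 ^ 2 = 384 * ℘[L] (Ω / 2) ^ 4 ∧
  ∀ {Γ : Type} [LinearOrderedCommGroupWithZero Γ] (v : Valuation ℂ Γ), v 2 < 1 →
  ∀ n : eis, n ≠ 0 → IsCoprime (2 : eis) n → N1 n → ∀ (k : Bool) (x : eis),
    v (yf L Ω (Ω * x / n)) ≤ 1 ∧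
    v ((Gf Ω 4 (et8 k) (Ω * x / n) + Gf Ω 4 (et8 k) (om * (Ω * x / n)) +
      Gf Ω 4 (et8 k) (om ^ 2 * (Ω * x / n))) / (3 * C0) -
      ((if k then 1 else 0) + (yf L Ω (Ω * x / n) + yf L Ω (-2 * (Ω * x / n))) ^ 2)) < 1

/-- C4a: `℘'` satisfies a distribution relation of weight three -/
def S_W3 : Prop := ∀ (L : PeriodPair) (Ω : ℂ), Cur L Ω → FN L Ω (Wf L Ω) fun a => (a : ℂ) ^ 2

/-- C4: the weighted sums of the base function -/
def S_B8 : Prop := ∀ (L : PeriodPair) (Ω : ℂ), Cur L Ω →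
  ∃ C0 : ℂ, C0 ^ 2 = 384 * ℘[L] (Ω / 2) ^ 4 ∧
  ∀ {Γ : Type} [LinearOrderedCommGroupWithZero Γ] (v : Valuation ℂ Γ), v 2 < 1 →
  ∀ (k : Bool) {ι : Type} [DecidableEq ι] (π : ι → eis) (S : Finset ι), FX S π →
    R4 v (Bw (Gf Ω 4 (et8 k)) Ω (∏ i ∈ S, π i) (fun m => ∏ i ∈ S, sy (π i) m) /
      (2 ^ S.card * C0)) (g8 k π S)

/-- C2: the values of the `L`-series -/
def S_VAL8 : Prop := ∀ (k : Bool) (Q P : Finset ℕ) (ϖ : ℕ → eis) (D : ℕ), Dt Q P ϖ →
  D = ∏ q ∈ Q ∪ P, q → (Q ∪ P).Nonempty → ∃ F : ℂ → ℂ, Differentiable ℂ F ∧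
    (∀ z : ℂ, 3 / 2 < z.re →
      HasSum (fun J : Ideal eis => psi6 J * c8I k J * XD D J * (nm J : ℂ) ^ (-z)) (F z)) ∧
    ∀ {Γ : Type} [LinearOrderedCommGroupWithZero Γ] (v : Valuation ℂ Γ), v 2 < 1 →
    ∀ (L : PeriodPair) (Ω : ℂ), Cur L Ω → ∃ s : ℂ, R4 v s (g8 k (pf Q ϖ) (ix Q P)) ∧
      v ((starRingEnd ℂ) (F 1) / Ω) ^ 2 =
        v 2 ^ (2 * (ix Q P).card + 1) * v (℘[L] (Ω / 2)) ^ 4 * v s ^ 2

end Pool.Agent.L0h75.C8
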